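import Pool.Agent.helper44.MDG.Spec

set_option autoImplicit false

namespace Pool.Agent.helper44.MDG

theorem CPC_card (e p : Bool) (k : ℕ) :
    ((Finset.range (2 * k)).filter (fun i => col e i = p)).card = k := by
  induction k with
  | zero => simp
  | succ k ih =>
    rw [Finset.card_filter] at ih ⊢
    rw [show 2 * (k + 1) = 2 * k + 1 + 1 by ring, Finset.sum_range_succ, Finset.sum_range_succ, ih]
    have h0 : col e (2 * k) = e := by
      unfold col
      rw [if_pos (by omega)]
    have h1 : col e (2 * k + 1) = !e := by
      unfold col
      rw [if_neg (by omega)]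
    rw [h0, h1]
    cases e <;> cases p <;> simp

theorem CPC : CPC_stmt := by
  intro n r s e p c h
  have hr : r = 2 * (r / 2) := by
    have := h.even
    omega
  have hc : ((Finset.range r).filter (fun i => col e i = p)).card = r / 2 := by
    have h1 := CPC_card e p (r / 2)
    rwa [← hr] at h1
  have hs : ∑ i ∈ (Finset.range r).filter (fun i => col e i = p), (s (i + 1) - s i + 2 + 2) / 3 =
      ∑ i ∈ (Finset.range r).filter (fun i => col e i = p), ((s (i + 1) - s i - 4 + 2) / 3 + 2) := by
    refine Finset.sum_congr rfl fun i hi => ?_
    rw [Finset.mem_filter, Finset.mem_range] at hi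
    have := h.len i hi.1
    omega
  unfold cntC
  rw [hs, Finset.sum_add_distrib, Finset.sum_const, hc, smul_eq_mul]
  omega

end Pool.Agent.helper44.MDG
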